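import Mathlib

open Finset

namespace Pool.Agent.Results.MP_b1aa48_co.NotClosedInduced

/-- Semidistributivity of a lattice (both halves). -/
def IsSemidistrib (L : Type*) [Lattice L] : Prop :=
  (∀ x y z : L, x ⊔ y = x ⊔ z → x ⊔ (y ⊓ z) = x ⊔ y) ∧
  (∀ x y z : L, x ⊓ y = x ⊓ z → x ⊓ (y ⊔ z) = x ⊓ y)

/-- `A` is the canonical join representation of `w`: it joins to `w`, no proper subset does,
and it refines every (finite) set which joins to `w`. -/
def IsCanonicalJoinRep {L : Type*} [Lattice L] [OrderBot L] (A : Finset L) (w : L) : Prop :=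
  A.sup id = w ∧ (∀ B : Finset L, B ⊂ A → B.sup id ≠ w) ∧
    ∀ B : Finset L, B.sup id = w → ∀ a ∈ A, ∃ b ∈ B, a ≤ b

/-- The join-irreducible elements. -/
abbrev JI (L : Type*) [Lattice L] : Type _ := {j : L // SupIrred j}

/-- The faces of the canonical join complex: sets of join-irreducible elements which are the
canonical join representation of some element. -/
def IsFace (L : Type*) [Lattice L] [OrderBot L] (A : Finset (JI L)) : Prop :=
  ∃ w : L, IsCanonicalJoinRep (A.map (Function.Embedding.subtype _)) w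

section Kappa

variable {L : Type*} [Lattice L] [BoundedOrder L] [Finite L]

theorem exists_kappa (hL : IsSemidistrib L) (j : L) (hj : SupIrred j) :
    ∃ l k : L, l < j ∧ (∀ x, x < j → x ≤ l) ∧ l ≤ k ∧ ¬ j ≤ k ∧
      ∀ m, l ≤ m → ¬ j ≤ m → m ≤ k := by
  classical
  have := Fintype.ofFinite L
  set l : L := (univ.filter (fun x => x < j)).sup id with hl
  have hlt : l < j := by
    have hle : l ≤ j := Finset.sup_le (fun x hx => (by simpa using hx : x < j).le)
    refine lt_of_le_of_ne hle ?_
    intro h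
    obtain ⟨i, hi, hij⟩ := hj.finset_sup_eq h
    simp only [mem_filter, mem_univ, true_and] at hi
    exact hi.ne hij
  have hmax : ∀ x, x < j → x ≤ l := fun x hx =>
    Finset.le_sup (f := id) (by simpa using hx)
  let K := univ.filter (fun m : L => l ≤ m ∧ ¬ j ≤ m)
  have hK : K.Nonempty := ⟨l, by
    simp only [K, mem_filter, mem_univ, true_and]
    exact ⟨le_rfl, not_le_of_gt hlt⟩⟩
  have hclosed : ∀ x ∈ {m : L | l ≤ m ∧ ¬ j ≤ m}, ∀ y ∈ {m : L | l ≤ m ∧ ¬ j ≤ m},
      x ⊔ y ∈ {m : L | l ≤ m ∧ ¬ j ≤ m} := by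
    rintro x ⟨hx1, hx2⟩ y ⟨hy1, hy2⟩
    have e : ∀ m, l ≤ m → ¬ j ≤ m → j ⊓ m = l := fun m h1 h2 =>
      le_antisymm (hmax _ (lt_of_le_of_ne inf_le_left (fun h => h2 (inf_eq_left.1 h))))
        (le_inf hlt.le h1)
    have h3 := hL.2 j x y ((e x hx1 hx2).trans (e y hy1 hy2).symm)
    refine ⟨le_sup_of_le_left hx1, fun h => ?_⟩
    rw [inf_eq_left.2 h, e x hx1 hx2] at h3
    exact hlt.ne h3.symm
  have h4 := Finset.sup'_mem _ hclosed K hK id (fun i hi => by
    have h5 : l ≤ i ∧ ¬ j ≤ i := by
      simpa only [K, mem_filter, mem_univ, true_and] using hi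
    exact h5)
  refine ⟨l, K.sup' hK id, hlt, hmax, h4.1, h4.2, fun m h1 h2 => ?_⟩
  exact Finset.le_sup' id (by
    simp only [K, mem_filter, mem_univ, true_and]
    exact ⟨h1, h2⟩)

theorem colorable_of_real (hL : IsSemidistrib L) {V : Type*} [DecidableEq V] (H : SimpleGraph V)
    (hH : ∀ x y z, H.Adj x y → H.Adj y z → H.Adj x z → False) (e : V ≃ JI L)
    (he : ∀ x y, x ≠ y → (H.Adj x y ↔ ¬ IsFace L (({x, y} : Finset V).map e.toEmbedding))) :
    H.Colorable 3 := by
  classical
  choose l κ hlt hmax hlκ hjκ hκ using fun j : JI L => exists_kappa hL j.1 j.2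
  -- the `κ`-map is injective
  have hinj : ∀ a b : JI L, κ a = κ b → a = b := by
    intro a b hab
    have h1 : b.1 ≤ κ a ⊔ a.1 := by
      by_contra h
      have h' := hκ b (κ a ⊔ a.1) (le_sup_of_le_left (hab ▸ hlκ b)) h
      exact hjκ a (le_sup_right.trans (h'.trans hab.ge))
    have h2 : a.1 ≤ κ a ⊔ b.1 := by
      by_contra h
      have h' := hκ a (κ a ⊔ b.1) (le_sup_of_le_left (hlκ a)) h
      exact hjκ b (le_sup_right.trans (h'.trans hab.le))
    have h3 : κ a ⊔ a.1 = κ a ⊔ b.1 :=
      le_antisymm (sup_le le_sup_left h2) (sup_le le_sup_left h1)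
    have h4 := hL.1 _ _ _ h3
    have h5 : a.1 ⊓ b.1 = a.1 := by
      by_contra h
      have h6 := hmax a _ (lt_of_le_of_ne inf_le_left h)
      rw [sup_eq_left.2 (h6.trans (hlκ a))] at h4
      exact hjκ a (sup_eq_left.1 h4.symm)
    have h7 : a.1 ⊓ b.1 = b.1 := by
      by_contra h
      have h6 := hmax b _ (lt_of_le_of_ne inf_le_right h)
      rw [sup_eq_left.2 ((h6.trans (hlκ b)).trans hab.ge)] at h4
      exact hjκ a (sup_eq_left.1 h4.symm)
    exact Subtype.ext (h5.symm.trans h7)
  -- two-element faces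
  have hface : ∀ a b : JI L, a ≠ b → (IsFace L {a, b} ↔ a.1 ≤ κ b ∧ b.1 ≤ κ a) := by
    intro a b hab
    have hmap : (({a, b} : Finset (JI L)).map (Function.Embedding.subtype _)) = {a.1, b.1} := by
      ext x
      simp
    have hab' : a.1 ≠ b.1 := fun h => hab (Subtype.ext h)
    have aux : ∀ a b : JI L, a.1 ≤ κ b → ∀ B : Finset L, B.sup id = a.1 ⊔ b.1 →
        ∃ c ∈ B, b.1 ≤ c := by
      intro a b hab B hB
      by_contra hno
      push Not at hno
      set m : L := (a.1 ⊔ b.1) ⊓ κ b with hm
      have hma : a.1 ≤ m := le_inf le_sup_left hab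
      have hml : l b ≤ m := le_inf (le_sup_of_le_right (hlt b).le) (hlκ b)
      have hmb : ¬ b.1 ≤ m := fun h => hjκ b (h.trans inf_le_right)
      obtain ⟨c, hcB, hc⟩ : ∃ c ∈ B, ¬ c ≤ m := by
        by_contra hall
        push Not at hall
        have : B.sup id ≤ m := Finset.sup_le hall
        rw [hB] at this
        exact hmb (le_sup_right.trans this)
      have hcw : c ≤ a.1 ⊔ b.1 := hB ▸ Finset.le_sup (f := id) hcB
      have hbc : b.1 ≤ m ⊔ c := by
        by_contra h
        have := hκ b (m ⊔ c) (le_sup_of_le_left hml) h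
        exact hc (le_inf hcw (le_sup_right.trans this))
      have h1 : m ⊔ c = m ⊔ b.1 := by
        apply le_antisymm
        · refine sup_le le_sup_left (hcw.trans (sup_le (le_sup_of_le_left hma) le_sup_right))
        · exact sup_le le_sup_left hbc
      have h2 := hL.1 _ _ _ h1
      have h3 : c ⊓ b.1 < b.1 := lt_of_le_of_ne inf_le_right
        (fun h => hno c hcB (inf_eq_right.1 h))
      have h4 := hmax b _ h3
      rw [sup_eq_left.2 (h4.trans hml)] at h2
      exact hmb (hbc.trans h2.ge)
    have aux2 : ∀ a b : JI L, a.1 ≠ b.1 →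
        IsCanonicalJoinRep ({a.1, b.1} : Finset L) (a.1 ⊔ b.1) → a.1 ≤ κ b := by
      intro a b hab h
      by_contra hno
      have h1 : b.1 ≤ a.1 ⊔ l b := by
        by_contra h'
        exact hno (le_sup_left.trans (hκ b _ le_sup_right h'))
      have h2 : ({a.1, l b} : Finset L).sup id = a.1 ⊔ b.1 := by
        simp only [sup_insert, sup_singleton, id]
        exact le_antisymm (sup_le le_sup_left (le_sup_of_le_right (hlt b).le))
          (sup_le le_sup_left h1)
      obtain ⟨c, hc, hbc⟩ := h.2.2 _ h2 b.1 (by simp)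
      simp only [mem_insert, mem_singleton] at hc
      rcases hc with rfl | rfl
      · refine h.2.1 {a.1} ?_ ?_
        · refine Finset.ssubset_iff_subset_ne.2 ⟨by simp, fun h' => ?_⟩
          have h5 : b.1 ∈ ({a.1} : Finset L) := by rw [h']; simp
          exact hab (Finset.mem_singleton.1 h5).symm
        · simp only [sup_singleton, id]
          exact (sup_eq_left.2 hbc).symm
      · exact absurd hbc (not_le_of_gt (hlt b))
    constructor
    · rintro ⟨w, hw⟩
      rw [hmap] at hw
      have hw' : w = a.1 ⊔ b.1 := by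
        rw [← hw.1]; simp
      subst hw'
      refine ⟨aux2 a b hab' hw, aux2 b a hab'.symm ?_⟩
      rw [Finset.pair_comm, sup_comm]
      exact hw
    · rintro ⟨h1, h2⟩
      refine ⟨a.1 ⊔ b.1, ?_⟩
      rw [hmap]
      have href : ∀ B : Finset L, B.sup id = a.1 ⊔ b.1 → ∀ x ∈ ({a.1, b.1} : Finset L),
          ∃ c ∈ B, x ≤ c := by
        intro B hB x hx
        simp only [mem_insert, mem_singleton] at hx
        rcases hx with rfl | rfl
        · exact aux b a h2 B (by rw [hB, sup_comm])
        · exact aux a b h1 B hB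
      refine ⟨by simp, ?_, href⟩
      intro B hBA hB
      have hna : ¬ a.1 ≤ b.1 := fun h => hjκ a (h.trans h2)
      have hnb : ¬ b.1 ≤ a.1 := fun h => hjκ b (h.trans h1)
      have hBA' : ∀ x ∈ B, x = a.1 ∨ x = b.1 := fun x hx => by
        simpa using hBA.1 hx
      have haB : a.1 ∈ B := by
        obtain ⟨c, hc, hac⟩ := href B hB a.1 (by simp)
        rcases hBA' c hc with rfl | rfl
        · exact hc
        · exact absurd hac hna
      have hbB : b.1 ∈ B := by
        obtain ⟨c, hc, hbc⟩ := href B hB b.1 (by simp)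
        rcases hBA' c hc with rfl | rfl
        · exact absurd hbc hnb
        · exact hc
      exact hBA.2 (by
        intro x hx
        simp only [mem_insert, mem_singleton] at hx
        rcases hx with rfl | rfl
        · exact haB
        · exact hbB)
  -- factorization
  have hfac : ∀ a b : JI L, ¬ a.1 ≤ κ b → ∃ z : JI L, z.1 ≤ a.1 ∧ ¬ z.1 ≤ κ b ∧ κ b ≤ κ z := by
    intro a b hab
    obtain ⟨z, ⟨hz1, hz2⟩, hzmin⟩ := (wellFounded_lt (α := L)).has_min
      {z : L | z ≤ a.1 ∧ ¬ z ≤ κ b} ⟨a.1, le_rfl, hab⟩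
    have hz3 : ∀ y, y < z → y ≤ κ b := by
      intro y hy
      by_contra h
      exact hzmin y ⟨hy.le.trans hz1, h⟩ hy
    have hzI : SupIrred z := by
      refine ⟨fun hmin => hz2 ?_, ?_⟩
      · rw [isMin_iff_eq_bot.1 hmin]
        exact bot_le
      · intro b' c' hbc
        by_contra hno
        push Not at hno
        have h1 : b' < z := lt_of_le_of_ne (hbc ▸ le_sup_left) hno.1
        have h2 : c' < z := lt_of_le_of_ne (hbc ▸ le_sup_right) hno.2
        exact hz2 (hbc ▸ sup_le (hz3 _ h1) (hz3 _ h2))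
    refine ⟨⟨z, hzI⟩, hz1, hz2, ?_⟩
    exact hκ ⟨z, hzI⟩ (κ b) (hz3 _ (hlt ⟨z, hzI⟩)) hz2
  -- arcs
  let A : V → V → Prop := fun x y => x ≠ y ∧ ¬ (e x).1 ≤ κ (e y)
  have hadj : ∀ x y, H.Adj x y ↔ A x y ∨ A y x := by
    intro x y
    by_cases hxy : x = y
    · subst hxy
      simp [A]
    · have hm : (({x, y} : Finset V).map e.toEmbedding) = {e x, e y} := by
        ext u
        simp
      rw [he x y hxy, hm, hface _ _ (fun h => hxy (e.injective h))]
      simp only [A]
      have hyx : y ≠ x := fun h => hxy h.symm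
      tauto
  have tri : ∀ x y z, (A x y ∨ A y x) → (A y z ∨ A z y) → (A x z ∨ A z x) → False := by
    intro x y z h1 h2 h3
    exact hH x y z ((hadj _ _).2 h1) ((hadj _ _).2 h2) ((hadj _ _).2 h3)
  have key : ∀ x y, A x y → (∀ u, ¬ A y u) ∨ (∀ u, ¬ A u x) := by
    intro x y hxy
    obtain ⟨z, hz1, hz2, hz3⟩ := hfac (e x) (e y) hxy.2
    obtain ⟨w, rfl⟩ := e.surjective z
    have hzne : ∀ {u v : V}, u ≠ v → (e u).1 ≤ (e v).1 → (e u).1 ≤ κ (e v) := by
      intro u v huv h
      have h1 : (e u).1 < (e v).1 := lt_of_le_of_ne h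
        (fun h' => huv (e.injective (Subtype.ext h')))
      exact (hmax _ _ h1).trans (hlκ _)
    by_cases hwx : w = x
    · subst hwx
      right
      intro u hu
      by_cases huy : u = y
      · subst huy
        obtain ⟨z', hz1', hz2', hz3'⟩ := hfac (e u) (e w) hu.2
        obtain ⟨w', rfl⟩ := e.surjective z'
        by_cases h1 : w' = u
        · subst h1
          exact hu.1 (e.injective (hinj _ _ (le_antisymm hz3 hz3')))
        · by_cases h2 : w' = w
          · subst h2
            exact hxy.2 (hzne hxy.1 hz1')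
          · refine tri w u w' (Or.inl hxy) (Or.inl ⟨fun h => h1 h.symm, fun h => ?_⟩)
              (Or.inr ⟨h2, hz2'⟩)
            exact hjκ _ (hz1'.trans h)
      · have hAuy : A u y := ⟨huy, fun h => hu.2 (h.trans hz3)⟩
        exact tri w y u (Or.inl hxy) (Or.inr hAuy) (Or.inr hu)
    · by_cases hwy : w = y
      · subst hwy
        left
        intro u hu
        by_cases hux : u = x
        · subst hux
          exact hu.2 (hzne hu.1 hz1)
        · have hAxu : A x u := ⟨fun h => hux h.symm, fun h => hu.2 (hz1.trans h)⟩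
          exact tri x w u (Or.inl hxy) (Or.inl hu) (Or.inl hAxu)
      · exfalso
        refine tri x y w (Or.inl hxy) (Or.inr ⟨hwy, hz2⟩) (Or.inl ⟨fun h => hwx h.symm, ?_⟩)
        intro h
        exact hjκ _ (hz1.trans h)
  let c : V → Fin 3 := fun x => if (∀ u, ¬ A u x) then 0 else if (∀ u, ¬ A x u) then 2 else 1
  have hc : ∀ x y, A x y → c x ≠ c y := by
    intro x y hxy
    have hy : ¬ ∀ u, ¬ A u y := fun h => h x hxy
    have hx : ¬ ∀ u, ¬ A x u := fun h => h y hxy
    simp only [c, if_neg hy, if_neg hx]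
    by_cases h1 : ∀ u, ¬ A u x
    · rw [if_pos h1]
      split_ifs <;> decide
    · rcases key x y hxy with h2 | h2
      · rw [if_neg h1, if_pos h2]; decide
      · exact absurd h2 h1
  exact ⟨SimpleGraph.Coloring.mk c (fun {x y} hxy => by
    rcases (hadj x y).1 hxy with h | h
    · exact hc _ _ h
    · exact (hc _ _ h).symm)⟩

end Kappa

section Construction

/-- The combinatorial data producing a semidistributive lattice. -/
structure Fac {S : Type*} (R : S → S → Prop) : Prop where
  refl : ∀ x, R x x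
  anti : ∀ x y, R x y → R y x → x = y
  fac : ∀ x y, R x y → ∃ z, (∀ w, R z w → R x w) ∧ (∀ w, R w z → R w y)

theorem Fac.swap {S : Type*} {R : S → S → Prop} (h : Fac R) : Fac (fun x y => R y x) where
  refl := h.refl
  anti := fun x y h1 h2 => h.anti x y h2 h1
  fac := fun x y hxy => by
    obtain ⟨z, h1, h2⟩ := h.fac y x hxy
    exact ⟨z, h2, h1⟩

/-- The lattice of closed sets of the orthogonality attached to `R`. -/
abbrev Lat {S : Type*} (R : S → S → Prop) : Type _ := Concept S S (fun x y => ¬ R x y)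

variable {S : Type*} {R : S → S → Prop}

theorem mem_ext_iff (c : Lat R) (x : S) : x ∈ c.extent ↔ ∀ y ∈ c.intent, ¬ R x y := by
  constructor
  · intro hx y hy
    exact c.rel_extent_intent hx hy
  · intro h
    rw [← c.lowerPolar_intent]
    exact fun y hy => h y hy

theorem mem_int_iff (c : Lat R) (y : S) : y ∈ c.intent ↔ ∀ x ∈ c.extent, ¬ R x y := by
  constructor
  · intro hy x hx
    exact c.rel_extent_intent hx hy
  · intro h
    rw [← c.upperPolar_extent]
    exact fun x hx => h x hx

theorem ext_up (c : Lat R) {x z : S} (hx : x ∈ c.extent) (hz : ∀ w, R z w → R x w) :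
    z ∈ c.extent := by
  rw [mem_ext_iff] at hx ⊢
  exact fun y hy h => hx y hy (hz y h)

theorem int_down (c : Lat R) {y z : S} (hy : y ∈ c.intent) (hz : ∀ w, R w z → R w y) :
    z ∈ c.intent := by
  rw [mem_int_iff] at hy ⊢
  exact fun x hx h => hy x hx (hz x h)

theorem joinSD (h : Fac R) [Finite S] (X Y Z : Lat R) (hXYZ : X ⊔ Y = X ⊔ Z) :
    X ⊔ (Y ⊓ Z) = X ⊔ Y := by
  apply le_antisymm (sup_le_sup_left inf_le_left _)
  rw [← Concept.intent_subset_intent_iff, Concept.intent_sup]
  rintro w ⟨hwX, hwYZ⟩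
  rw [Concept.intent_sup]
  refine ⟨hwX, ?_⟩
  by_contra hwY
  have hint : ∀ v, v ∈ X.intent → (v ∈ Y.intent ↔ v ∈ Z.intent) := by
    intro v hv
    have h1 : v ∈ (X ⊔ Y).intent ↔ v ∈ (X ⊔ Z).intent := by rw [hXYZ]
    rw [Concept.intent_sup, Concept.intent_sup] at h1
    constructor
    · intro h2
      exact (h1.1 ⟨hv, h2⟩).2
    · intro h2
      exact (h1.2 ⟨hv, h2⟩).2
  -- the preorder
  let P : Set S := {v | (∀ u, R u v → R u w) ∧ (v ∈ Y.extent ∨ v ∈ Z.extent)}
  have hPne : P.Nonempty := by
    rw [mem_int_iff] at hwY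
    push Not at hwY
    obtain ⟨y, hy, hyw⟩ := hwY
    obtain ⟨v, hv1, hv2⟩ := h.fac y w hyw
    exact ⟨v, hv2, Or.inl (ext_up Y hy hv1)⟩
  have hwf : WellFounded (fun a b : S => (∀ u, R u a → R u b) ∧ a ≠ b) := by
    have : IsTrans S (fun a b : S => (∀ u, R u a → R u b) ∧ a ≠ b) := ⟨by
      rintro a b c ⟨h1, h2⟩ ⟨h3, h4⟩
      refine ⟨fun u hu => h3 u (h1 u hu), ?_⟩
      rintro rfl
      exact h2 (h.anti a b (h1 a (h.refl a)) (h3 b (h.refl b)))⟩
    have : Std.Irrefl (fun a b : S => (∀ u, R u a → R u b) ∧ a ≠ b) := ⟨fun a ha => ha.2 rfl⟩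
    exact Finite.wellFounded_of_trans_of_irrefl _
  obtain ⟨v, ⟨hv1, hv2⟩, hvmin⟩ := hwf.has_min P hPne
  have hvX : v ∈ X.intent := int_down X hwX hv1
  have step : ∀ C D : Lat R, (v ∈ C.extent) → (v ∉ D.intent) →
      (∀ z ∈ D.extent, z ∈ Y.extent ∨ z ∈ Z.extent) → v ∈ D.extent := by
    intro C D _ hvD hD
    rw [mem_int_iff] at hvD
    push Not at hvD
    obtain ⟨z, hz, hzv⟩ := hvD
    obtain ⟨u, hu1, hu2⟩ := h.fac z v hzv
    have huD := ext_up D hz hu1
    have huP : u ∈ P := ⟨fun t ht => hv1 t (hu2 t ht), hD u huD⟩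
    by_cases huv : u = v
    · exact huv ▸ huD
    · exact absurd ⟨hu2, huv⟩ (hvmin u huP)
  have hrefl := h.refl v
  have hboth : v ∈ Y.extent ∧ v ∈ Z.extent := by
    rcases hv2 with hvY | hvZ
    · refine ⟨hvY, step Y Z hvY ?_ (fun z hz => Or.inr hz)⟩
      intro h1
      exact (mem_ext_iff Y v).1 hvY v ((hint v hvX).2 h1) hrefl
    · refine ⟨step Z Y hvZ ?_ (fun z hz => Or.inl hz), hvZ⟩
      intro h1
      exact (mem_ext_iff Z v).1 hvZ v ((hint v hvX).1 h1) hrefl
  have hvw : R v w := hv1 v hrefl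
  have hvYZ : v ∈ (Y ⊓ Z).extent := by
    rw [Concept.extent_inf]
    exact hboth
  exact (mem_ext_iff _ v).1 hvYZ w hwYZ hvw

/-- Reversing the relation reverses the lattice. -/
def flip (c : Lat R) : Lat (fun x y => R y x) where
  extent := c.intent
  intent := c.extent
  upperPolar_extent := c.lowerPolar_intent
  lowerPolar_intent := c.upperPolar_extent

theorem isSemidistrib (h : Fac R) [Finite S] : IsSemidistrib (Lat R) := by
  refine ⟨joinSD h, ?_⟩
  intro X Y Z hXYZ
  have h1 : flip X ⊔ flip Y = flip X ⊔ flip Z := by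
    apply Concept.ext'
    rw [Concept.intent_sup, Concept.intent_sup]
    have := congrArg Concept.extent hXYZ
    rw [Concept.extent_inf, Concept.extent_inf] at this
    exact this
  have h2 := joinSD h.swap _ _ _ h1
  have h3 := congrArg Concept.intent h2
  rw [Concept.intent_sup, Concept.intent_sup] at h3
  apply Concept.ext
  rw [Concept.extent_inf, Concept.extent_inf]
  have h4 : (flip Y ⊓ flip Z).intent = (Y ⊔ Z).extent := by
    apply Set.ext
    intro x
    rw [mem_int_iff, mem_ext_iff, Concept.extent_inf, Concept.intent_sup]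
    rfl
  rw [h4] at h3
  exact h3

/-- The principal closed set of `x`. -/
def pr (R : S → S → Prop) (x : S) : Lat R := Concept.ofObject _ x

theorem pr_le_iff (x : S) (c : Lat R) : pr R x ≤ c ↔ x ∈ c.extent := by
  unfold pr Concept.ofObject
  rw [Concept.ofObjects_le_iff]
  simp

theorem mem_pr_int (x y : S) : y ∈ (pr R x).intent ↔ ¬ R x y := by
  unfold pr
  simp

theorem mem_pr_ext (x y : S) : y ∈ (pr R x).extent ↔ ∀ w, R y w → R x w := by
  rw [mem_ext_iff]
  constructor
  · intro h w hyw
    by_contra hxw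
    exact h w ((mem_pr_int x w).2 hxw) hyw
  · intro h w hw hyw
    exact (mem_pr_int x w).1 hw (h w hyw)

theorem pr_self (x : S) : x ∈ (pr R x).extent := (mem_pr_ext x x).2 (fun _ h => h)

theorem pr_irred (h : Fac R) (x : S) : SupIrred (pr R x) := by
  constructor
  · intro hmin
    have h1 : pr R x ≤ (⊥ : Lat R) := by rw [isMin_iff_eq_bot.1 hmin]
    rw [pr_le_iff] at h1
    have h2 : x ∈ (⊥ : Lat R).intent := by simp
    exact (mem_ext_iff _ x).1 h1 x h2 (h.refl x)
  · intro b c hbc
    have h1 : x ∉ (b ⊔ c).intent := by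
      rw [hbc, mem_pr_int]
      simpa using h.refl x
    rw [Concept.intent_sup] at h1
    have key : ∀ d : Lat R, d ≤ pr R x → x ∉ d.intent → d = pr R x := by
      intro d hd hxd
      rw [mem_int_iff] at hxd
      push Not at hxd
      obtain ⟨y, hy, hyx⟩ := hxd
      have h2 : y ∈ (pr R x).extent := (Concept.extent_subset_extent_iff.2 hd) hy
      have h3 : R x y := (mem_pr_ext x y).1 h2 y (h.refl y)
      have h4 := h.anti x y h3 hyx
      subst h4
      exact le_antisymm hd ((pr_le_iff x d).2 hy)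
    by_cases hb : x ∈ b.intent
    · right
      exact key c (hbc ▸ le_sup_right) (fun hc => h1 ⟨hb, hc⟩)
    · left
      exact key b (hbc ▸ le_sup_left) hb

theorem pr_inj (h : Fac R) : Function.Injective (pr R) := by
  intro x y hxy
  have h1 : y ∈ (pr R x).extent := by rw [hxy]; exact pr_self y
  have h2 : x ∈ (pr R y).extent := by rw [← hxy]; exact pr_self x
  exact h.anti x y ((mem_pr_ext x y).1 h1 y (h.refl y)) ((mem_pr_ext y x).1 h2 x (h.refl x))

/-- The join-irreducible elements attached to the points. -/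
def prJI (h : Fac R) : S ↪ JI (Lat R) :=
  ⟨fun x => ⟨pr R x, pr_irred h x⟩, fun _ _ hxy => pr_inj h (congrArg Subtype.val hxy)⟩

theorem mem_sup_int (B : Finset (Lat R)) (y : S) :
    y ∈ (B.sup id).intent ↔ ∀ b ∈ B, y ∈ b.intent := by
  classical
  induction B using Finset.induction_on with
  | empty => simp
  | insert b B _ ih =>
    rw [Finset.sup_insert, Concept.intent_sup]
    simp only [Finset.mem_insert, forall_eq_or_imp, id]
    rw [← ih]
    rfl

theorem face_iff (h : Fac R) [Finite S] (A : Finset S) :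
    IsFace (Lat R) (A.map (prJI h)) ↔ ∀ x ∈ A, ∀ y ∈ A, x ≠ y → ¬ R x y := by
  classical
  have := Fintype.ofFinite S
  have hmap : (A.map (prJI h)).map (Function.Embedding.subtype _) = A.image (pr R) := by
    ext c
    simp only [Finset.mem_map, Finset.mem_image, Function.Embedding.coe_subtype]
    constructor
    · rintro ⟨a, ⟨x, hx, rfl⟩, rfl⟩
      exact ⟨x, hx, rfl⟩
    · rintro ⟨x, hx, rfl⟩
      exact ⟨_, ⟨x, hx, rfl⟩, rfl⟩
  have hmem : ∀ y : S, y ∈ ((A.image (pr R)).sup id).intent ↔ ∀ x ∈ A, ¬ R x y := by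
    intro y
    rw [mem_sup_int]
    simp [mem_pr_int]
  unfold IsFace
  rw [hmap]
  constructor
  · rintro ⟨w, hw1, hw2, hw3⟩ x hx y hy hxy hR
    let B : Finset (Lat R) := ((A.erase y) ∪ (univ.filter
      (fun z => (∀ u, R z u → R y u) ∧ z ≠ y))).image (pr R)
    have hB : B.sup id = w := by
      rw [← hw1]
      apply Concept.ext'
      ext u
      rw [hmem, mem_sup_int]
      constructor
      · intro h1 t ht hRt
        have h2 : ∀ z, (z ∈ A.erase y ∨ ((∀ u, R z u → R y u) ∧ z ≠ y)) → ¬ R z u := by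
          intro z hz
          have := h1 (pr R z) (by
            simp only [B, Finset.mem_image, Finset.mem_union, Finset.mem_filter,
              Finset.mem_univ, true_and]
            exact ⟨z, hz, rfl⟩)
          rwa [mem_pr_int] at this
        by_cases hty : t = y
        · subst hty
          obtain ⟨z, hz1, hz2⟩ := h.fac t u hRt
          have hzu : R z u := hz2 z (h.refl z)
          by_cases hzt : z = t
          · subst hzt
            exact h2 x (Or.inl (Finset.mem_erase.2 ⟨hxy, hx⟩)) (hz2 x hR)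
          · exact h2 z (Or.inr ⟨hz1, hzt⟩) hzu
        · exact h2 t (Or.inl (Finset.mem_erase.2 ⟨hty, ht⟩)) hRt
      · intro h1 b hb
        simp only [B, Finset.mem_image, Finset.mem_union, Finset.mem_filter,
              Finset.mem_univ, true_and, Finset.mem_erase] at hb
        obtain ⟨z, hz, rfl⟩ := hb
        rw [mem_pr_int]
        rcases hz with hz | hz
        · exact h1 z hz.2
        · exact fun h2 => h1 y hy (hz.1 u h2)
    obtain ⟨b, hb, hyb⟩ := hw3 B hB (pr R y) (Finset.mem_image_of_mem _ hy)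
    simp only [B, Finset.mem_image, Finset.mem_union, Finset.mem_filter,
              Finset.mem_univ, true_and, Finset.mem_erase] at hb
    obtain ⟨z, hz, rfl⟩ := hb
    rw [pr_le_iff, mem_pr_ext] at hyb
    rcases hz with hz | hz
    · refine hw2 ((A.erase y).image (pr R)) ?_ ?_
      · refine Finset.ssubset_iff_subset_ne.2 ⟨Finset.image_subset_image (Finset.erase_subset _ _), ?_⟩
        intro h1
        have h2 : pr R y ∈ (A.erase y).image (pr R) := by
          rw [h1]; exact Finset.mem_image_of_mem _ hy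
        obtain ⟨t, ht, hty⟩ := Finset.mem_image.1 h2
        exact (Finset.mem_erase.1 ht).1 (pr_inj h hty)
      · rw [← hw1]
        apply Concept.ext'
        ext u
        rw [hmem, mem_sup_int]
        constructor
        · intro h1 t ht hRt
          have h2 : ∀ v, v ≠ y → v ∈ A → ¬ R v u := by
            intro v hv hvA
            have h3 := h1 (pr R v) (Finset.mem_image_of_mem _ (Finset.mem_erase.2 ⟨hv, hvA⟩))
            rwa [mem_pr_int] at h3
          by_cases hty : t = y
          · subst hty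
            exact h2 z hz.1 hz.2 (hyb u hRt)
          · exact h2 t hty ht hRt
        · intro h1 b hb
          obtain ⟨t, ht, rfl⟩ := Finset.mem_image.1 hb
          rw [mem_pr_int]
          exact h1 t (Finset.mem_erase.1 ht).2
    · exact hz.2 (h.anti z y (hyb y (h.refl y)) (hz.1 z (h.refl z)))
  · intro hind
    refine ⟨(A.image (pr R)).sup id, rfl, ?_, ?_⟩
    rotate_left
    · intro B hB a ha
      obtain ⟨x, hx, rfl⟩ := Finset.mem_image.1 ha
      have h1 : x ∉ (B.sup id).intent := by
        rw [hB, hmem]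
        intro h2
        exact h2 x hx (h.refl x)
      rw [mem_sup_int] at h1
      push Not at h1
      obtain ⟨b, hb, hxb⟩ := h1
      rw [mem_int_iff] at hxb
      push Not at hxb
      obtain ⟨y, hy, hyx⟩ := hxb
      obtain ⟨z, hz1, hz2⟩ := h.fac y x hyx
      have hzb : z ∈ b.extent := ext_up b hy hz1
      have hzw : z ∈ (B.sup id).extent :=
        (Concept.extent_subset_extent_iff.2 (Finset.le_sup (f := id) hb)) hzb
      have h3 : z ∉ (B.sup id).intent := fun h4 =>
        (mem_ext_iff _ z).1 hzw z h4 (h.refl z)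
      rw [hB, hmem] at h3
      push Not at h3
      obtain ⟨x', hx', hx'z⟩ := h3
      have h5 : x' = x := by
        by_contra h6
        exact hind x' hx' x hx h6 (hz2 x' hx'z)
      subst h5
      have h7 : R z x' := hz2 z (h.refl z)
      have h8 := h.anti x' z hx'z h7
      subst h8
      exact ⟨b, hb, (pr_le_iff _ _).2 hzb⟩
    · intro B hBA hB
      apply hBA.2
      intro a ha
      obtain ⟨x, hx, rfl⟩ := Finset.mem_image.1 ha
      have h1 : x ∉ (B.sup id).intent := by
        rw [hB, hmem]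
        intro h2
        exact h2 x hx (h.refl x)
      rw [mem_sup_int] at h1
      push Not at h1
      obtain ⟨b, hb, hxb⟩ := h1
      obtain ⟨t, ht, rfl⟩ := Finset.mem_image.1 (hBA.1 hb)
      rw [mem_pr_int] at hxb
      push Not at hxb
      by_cases htx : t = x
      · exact htx ▸ hb
      · exact absurd hxb (hind t ht x hx htx)

end Construction

section Graph

/-- The vertices, and one extra point for each pair of vertices. -/
abbrev Pt (V : Type*) : Type _ := V ⊕ (V × V)

/-- The relation on the points. -/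
def rel {V : Type*} (o : V → V → Prop) : Pt V → Pt V → Prop
  | Sum.inl x, Sum.inl y => x = y ∨ o x y
  | Sum.inl x, Sum.inr p => x = p.1 ∧ o p.1 p.2
  | Sum.inr p, Sum.inl y => y = p.2 ∧ o p.1 p.2
  | Sum.inr p, Sum.inr q => p = q

theorem rel_fac {V : Type*} (o : V → V → Prop) (ho : ∀ x y, o x y → ¬ o y x) :
    Fac (rel o) where
  refl := by
    rintro (x | p)
    · exact Or.inl rfl
    · exact rfl
  anti := by
    rintro (x | ⟨p, p'⟩) (y | ⟨q, q'⟩) h1 h2
    · rcases h1 with h1 | h1
      · rw [h1]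
      · rcases h2 with h2 | h2
        · rw [h2]
        · exact absurd h2 (ho _ _ h1)
    · obtain ⟨h3, h4⟩ := h1
      obtain ⟨h5, h6⟩ := h2
      simp only at h3 h4 h5 h6
      rw [← h3, ← h5] at h4
      exact absurd h4 (ho _ _ h4)
    · obtain ⟨h3, h4⟩ := h1
      obtain ⟨h5, h6⟩ := h2
      simp only at h3 h4 h5 h6
      rw [← h3, ← h5] at h4
      exact absurd h4 (ho _ _ h4)
    · exact congrArg Sum.inr h1
  fac := by
    rintro (x | ⟨p, p'⟩) (y | ⟨q, q'⟩) h1
    · rcases h1 with h1 | h1
      · subst h1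
        exact ⟨Sum.inl x, fun _ h => h, fun _ h => h⟩
      · refine ⟨Sum.inr (x, y), ?_, ?_⟩
        · rintro (w | w) hw
          · obtain ⟨h3, h4⟩ := hw
            simp only at h3
            subst h3
            exact Or.inr h1
          · have h3 : (x, y) = w := hw
            subst h3
            exact ⟨rfl, h1⟩
        · rintro (w | w) hw
          · obtain ⟨h3, h4⟩ := hw
            simp only at h3
            subst h3
            exact Or.inr h1
          · have h3 : w = (x, y) := hw
            subst h3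
            exact ⟨rfl, h1⟩
    · obtain ⟨h3, h4⟩ := h1
      simp only at h3 h4
      subst h3
      refine ⟨Sum.inr (x, q'), ?_, fun _ h => h⟩
      rintro (w | w) hw
      · obtain ⟨h5, h6⟩ := hw
        simp only at h5
        subst h5
        exact Or.inr h4
      · have h5 : (x, q') = w := hw
        subst h5
        exact ⟨rfl, h4⟩
    · obtain ⟨h3, h4⟩ := h1
      simp only at h3 h4
      subst h3
      refine ⟨Sum.inr (p, y), fun _ h => h, ?_⟩
      rintro (w | w) hw
      · obtain ⟨h5, h6⟩ := hw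
        simp only at h5
        subst h5
        exact Or.inr h4
      · have h5 : w = (p, y) := hw
        subst h5
        exact ⟨rfl, h4⟩
    · have h3 : (p, p') = (q, q') := h1
      rw [h3]
      exact ⟨Sum.inr (q, q'), fun _ h => h, fun _ h => h⟩

/-- The edges (smaller end first) of the Groetzsch graph on eleven vertices. -/
def groetzschEdges : List (ℕ × ℕ) :=
  [(0, 1), (1, 2), (2, 3), (3, 4), (0, 4),
   (1, 5), (4, 5), (0, 6), (2, 6), (1, 7), (3, 7), (2, 8), (4, 8), (3, 9), (0, 9),
   (5, 10), (6, 10), (7, 10), (8, 10), (9, 10)]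

/-- The oriented adjacency. -/
def gro (x y : Fin 11) : Prop := (x.1, y.1) ∈ groetzschEdges

instance : DecidableRel gro := fun x y => by unfold gro; infer_instance

theorem gro_asymm : ∀ x y, gro x y → ¬ gro y x := by decide +kernel

/-- The Groetzsch graph. -/
def groetzsch : SimpleGraph (Fin 11) where
  Adj x y := gro x y ∨ gro y x
  symm := ⟨fun _ _ h => h.symm⟩
  loopless := ⟨fun x h => by
    rcases h with h | h
    · exact gro_asymm x x h h
    · exact gro_asymm x x h h⟩

theorem groetzsch_triangleFree : ∀ x y z : Fin 11, (gro x y ∨ gro y x) → (gro y z ∨ gro z y) →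
    (gro x z ∨ gro z x) → False := by decide +kernel

/-- Last part of the non-colourability check. -/
def NoC (a0 a2 a3 a4 b0 b1 b2 : Fin 3) : Prop :=
  ∀ b3, a2 ≠ b3 → a4 ≠ b3 → ∀ b4, a3 ≠ b4 → a0 ≠ b4 →
    ∀ c : Fin 3, b0 ≠ c → b1 ≠ c → b2 ≠ c → b3 ≠ c → b4 ≠ c → False

instance (a0 a2 a3 a4 b0 b1 b2 : Fin 3) : Decidable (NoC a0 a2 a3 a4 b0 b1 b2) := by
  unfold NoC; infer_instance

/-- Middle part of the non-colourability check. -/
def NoB (a0 a1 a2 a3 a4 : Fin 3) : Prop :=
  ∀ b0, a1 ≠ b0 → a4 ≠ b0 → ∀ b1, a0 ≠ b1 → a2 ≠ b1 →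
    ∀ b2, a1 ≠ b2 → a3 ≠ b2 → NoC a0 a2 a3 a4 b0 b1 b2

instance (a0 a1 a2 a3 a4 : Fin 3) : Decidable (NoB a0 a1 a2 a3 a4) := by
  unfold NoB; infer_instance

theorem no_three_aux : ∀ a0 a1 : Fin 3, a0 ≠ a1 → ∀ a2, a1 ≠ a2 → ∀ a3, a2 ≠ a3 →
    ∀ a4, a3 ≠ a4 → a0 ≠ a4 → NoB a0 a1 a2 a3 a4 := by decide +kernel

theorem groetzsch_not_colorable : ¬ groetzsch.Colorable 3 := by
  rintro ⟨C⟩
  have h : ∀ x y : Fin 11, gro x y → C x ≠ C y := fun x y hxy => C.valid (Or.inl hxy)
  exact no_three_aux (C 0) (C 1) (h _ _ (by decide)) (C 2) (h _ _ (by decide))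
    (C 3) (h _ _ (by decide)) (C 4) (h _ _ (by decide)) (h _ _ (by decide))
    (C 5) (h _ _ (by decide)) (h _ _ (by decide)) (C 6) (h _ _ (by decide)) (h _ _ (by decide))
    (C 7) (h _ _ (by decide)) (h _ _ (by decide)) (C 8) (h _ _ (by decide)) (h _ _ (by decide))
    (C 9) (h _ _ (by decide)) (h _ _ (by decide)) (C 10) (h _ _ (by decide)) (h _ _ (by decide))
    (h _ _ (by decide)) (h _ _ (by decide)) (h _ _ (by decide))

end Graph

/-- The class of canonical join complexes of finite semidistributive lattices is not closed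
under induced subcomplexes. -/
theorem result.{u} : ∃ (L : Type) (_ : Lattice L) (_ : BoundedOrder L) (_ : Finite L),
    IsSemidistrib L ∧ ∃ W : Set (JI L),
      ∀ (L' : Type u) [Lattice L'] [BoundedOrder L'] [Finite L'], IsSemidistrib L' →
        ¬ ∃ e : W ≃ JI L', ∀ A : Finset W,
          IsFace L (A.map (Function.Embedding.subtype _)) ↔ IsFace L' (A.map e.toEmbedding) := by
  have hF : Fac (rel gro) := rel_fac gro gro_asymm
  have hfin : Finite (Lat (rel gro)) :=
    Finite.of_injective Concept.extent Concept.extent_injective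
  refine ⟨Lat (rel gro), inferInstance, inferInstance, hfin, isSemidistrib hF,
    Set.range (fun v : Fin 11 => prJI hF (Sum.inl v)), ?_⟩
  intro L' _ _ _ hL' ⟨e, he⟩
  have hinj : Function.Injective (fun v : Fin 11 => prJI hF (Sum.inl v)) :=
    (prJI hF).injective.comp Sum.inl_injective
  let e' : Fin 11 ≃ Set.range (fun v : Fin 11 => prJI hF (Sum.inl v)) :=
    Equiv.ofInjective _ hinj
  refine groetzsch_not_colorable (colorable_of_real hL' groetzsch
    (fun x y z h1 h2 h3 => groetzsch_triangleFree x y z h1 h2 h3) (e'.trans e) ?_)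
  intro x y hxy
  have h1 := he (({x, y} : Finset (Fin 11)).map e'.toEmbedding)
  rw [Finset.map_map, Finset.map_map] at h1
  have h2 : (({x, y} : Finset (Fin 11)).map (e'.trans e).toEmbedding) =
      ({x, y} : Finset (Fin 11)).map (e'.toEmbedding.trans e.toEmbedding) := by
    ext u
    simp
  have h3 : (({x, y} : Finset (Fin 11)).map
      (e'.toEmbedding.trans (Function.Embedding.subtype _))) =
      (({x, y} : Finset (Fin 11)).map ⟨Sum.inl, Sum.inl_injective⟩ : Finset (Pt (Fin 11))).map
        (prJI hF) := by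
    rw [Finset.map_map]
    congr 1
  rw [h2, ← h1, h3, face_iff hF]
  constructor
  · rintro (h | h) h4
    · exact h4 (Sum.inl x) (by simp) (Sum.inl y) (by simp) (fun h => hxy (Sum.inl_injective h))
        (Or.inr h)
    · exact h4 (Sum.inl y) (by simp) (Sum.inl x) (by simp)
        (fun h => hxy (Sum.inl_injective h).symm) (Or.inr h)
  · intro h4
    by_contra h5
    apply h4
    intro a ha b hb hab hR
    simp only [Finset.map_insert, Finset.map_singleton, Function.Embedding.coeFn_mk,
      Finset.mem_insert, Finset.mem_singleton] at ha hb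
    rcases ha with rfl | rfl <;> rcases hb with rfl | rfl
    · exact hab rfl
    · rcases hR with h | h
      · exact hxy h
      · exact h5 (Or.inl h)
    · rcases hR with h | h
      · exact hxy h.symm
      · exact h5 (Or.inr h)
    · exact hab rfl

end Pool.Agent.Results.MP_b1aa48_co.NotClosedInduced
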